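import Pool.Agent.H80.ER3.Pat

/-!
# MP_816b90_co: some rung of a minimal prism of the lift is contained in `R`
-/

set_option autoImplicit false

namespace Pool.Agent.H80.ER3

open Pool.Agent.H48.ER Pool.Agent.H52.ER2 Pool.Agent.H66.ER2 Pool.Agent.H20.ER3

variable {V : Type} {H : SimpleGraph V} {R : Set V} {n : Fin 3 → ℕ}
  {g : Fin 3 → ℕ → V ⊕ Set V}

/-- not exactly one corner `g i 0` is in `R` -/
theorem eb_one [Finite V] (hPP : U_PP) (hC2 : U_C2) (hE : EvS H R) (hK : MR H R n g)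
    (s t : Fin 3 → ℕ) (hst : ∀ i, Pt R n g i (s i) (t i)) (m : Fin 3) (hm : InR R (g m 0))
    (ho : ∀ i, i ≠ m → ¬ InR R (g i 0)) : False := by
  have h' := MR.perm hPP hK (Equiv.swap 0 m) (Equiv.injective _)
  have e0 : Equiv.swap 0 m 0 = m := Equiv.swap_apply_left 0 m
  have hne : ∀ i, i ≠ 0 → Equiv.swap 0 m i ≠ m := by
    intro i hi h2
    apply hi
    have : Equiv.swap 0 m i = Equiv.swap 0 m 0 := by rw [h2, e0]
    exact (Equiv.injective _) this
  have h1 := hst m
  have h2 := h1.1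
  have h3 := h1.2.1
  refine ho _ (hne 2 (by decide)) (hC2 V H R _ _ (s m) hE h' (h1.s_pos hm) ?_ ?_ ?_ ?_)
  · simp only [e0]; omega
  · simp only [e0]; exact h1.2.2.1
  · simp only [e0]; exact h1.2.2.2.1 _ le_rfl h1.1
  · exact ho _ (hne 1 (by decide))

/-- not exactly two corners `g i 0` are in `R` -/
theorem eb_two (hPP : U_PP) (hC3 : U_C3) (hE : EvS H R) (hA : AsS H R) (hp : PI (MG H R) n g)
    (hodd : ∀ i, Odd (n i)) (s t : Fin 3 → ℕ) (hst : ∀ i, Pt R n g i (s i) (t i)) (m : Fin 3)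
    (hm : ¬ InR R (g m 0)) (ho : ∀ i, i ≠ m → InR R (g i 0)) : False := by
  obtain ⟨h1, _, _⟩ := hPP _ _ n g hp
  obtain ⟨h', _⟩ := h1 (Equiv.swap 2 m) (Equiv.injective _)
  have e0 : Equiv.swap 2 m 2 = m := Equiv.swap_apply_left 2 m
  have hne : ∀ i, i ≠ 2 → Equiv.swap 2 m i ≠ m := by
    intro i hi h2
    apply hi
    have : Equiv.swap 2 m i = Equiv.swap 2 m 2 := by rw [h2, e0]
    exact (Equiv.injective _) this
  have key := hC3 V H R _ _ (fun i => s (Equiv.swap 2 m i)) hE hA h' (fun i => hodd _) ?_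
  · simp only [e0] at key
    exact hm key
  · intro i hi
    have h1 := hst (Equiv.swap 2 m i)
    have h2 := h1.1
    have h3 := h1.2.1
    exact ⟨h1.s_pos (ho _ (hne i hi)), le_trans h2 h3, h1.2.2.1, h1.2.2.2.1 _ le_rfl h1.1⟩

variable {G : SimpleGraph V} {p q : V}

/-- not all corners `g i 0` are in `R` -/
theorem eb_three (hC4 : U_C4) (hD1 : U_D1) (hGB : U_GB) (hG : Cls G) (hE : EvS G R)
    (hP : EvP G p q) (hp : p ∉ R) (hq : q ∉ R) (hE' : EvS (ctr G p q) R)
    (hA' : AsS (ctr G p q) R) (hpi : PI (MG (ctr G p q) R) n g)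
    (hodd : ∀ i, Odd (n i)) (s t : Fin 3 → ℕ) (hst : ∀ i, Pt R n g i (s i) (t i))
    (ho : ∀ i, InR R (g i 0)) : False := by
  have key := hC4 V (ctr G p q) R n g s hE' hA' hpi hodd (fun i => by
    have h1 := hst i
    exact ⟨h1.s_pos (ho i), le_trans h1.1 h1.2.1, h1.2.2.1, h1.2.2.2.1 _ le_rfl h1.1⟩)
  have hlt : ∀ i k, k < n i → InR R (g i k) :=
    fun i k hk => (hst i).2.2.1 k (by rw [key i]; exact hk)
  obtain ⟨g', h1, h2⟩ := real_of hGB hpi hlt
  refine hD1 V G R p q n g' hG.nop hE hp hq hP h1 hodd ?_ ?_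
  · intro i h3
    have h4 := hst i
    refine h4.2.2.2.1 (n i) (by rw [key i]) ?_ ?_
    · have := h4.1
      rw [key i] at this
      exact this
    · rw [h2 i _ le_rfl, InR.inl_iff]
      exact h3
  · intro i k hk
    have := hlt i k hk
    rw [h2 i k hk.le, InR.inl_iff] at this
    exact this

/-- no corner `g i 0` is in `R` -/
theorem eb_end [Finite V] (hC2 : U_C2) (hC3 : U_C3) (hC4 : U_C4) (hD1 : U_D1) (hGB : U_GB)
    (hPP : U_PP) (hG : Cls G) (hE : EvS G R)
    (hP : EvP G p q) (hp : p ∉ R) (hq : q ∉ R) (hE' : EvS (ctr G p q) R)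
    (hA' : AsS (ctr G p q) R) (hK : MR (ctr G p q) R n g)
    (hst : ∀ i, ∃ s t, Pt R n g i s t) : ∀ i, ¬ InR R (g i 0) := by
  choose s t hst using hst
  have h1 := eb_one hPP hC2 hE' hK s t hst
  have h2 := eb_two hPP hC3 hE' hA' hK.pi hK.odd s t hst
  have h3 := eb_three hC4 hD1 hGB hG hE hP hp hq hE' hA' hK.pi hK.odd s t hst
  by_cases a0 : InR R (g 0 0) <;> by_cases a1 : InR R (g 1 0) <;> by_cases a2 : InR R (g 2 0)
  · exact (h3 (by intro i; fin_cases i <;> assumption)).elim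
  · exact (h2 2 a2 (by
      intro i hi; fin_cases i <;> first | assumption | exact absurd rfl hi)).elim
  · exact (h2 1 a1 (by
      intro i hi; fin_cases i <;> first | assumption | exact absurd rfl hi)).elim
  · exact (h1 0 a0 (by
      intro i hi; fin_cases i <;> first | assumption | exact absurd rfl hi)).elim
  · exact (h2 0 a0 (by
      intro i hi; fin_cases i <;> first | assumption | exact absurd rfl hi)).elim
  · exact (h1 1 a1 (by
      intro i hi; fin_cases i <;> first | assumption | exact absurd rfl hi)).elim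
  · exact (h1 2 a2 (by
      intro i hi; fin_cases i <;> first | assumption | exact absurd rfl hi)).elim
  · intro i; fin_cases i <;> assumption

theorem pf_EB (hEA : U_EA) (hC0 : U_C0) (hC2 : U_C2) (hC3 : U_C3) (hC4 : U_C4) (hD1 : U_D1)
    (hGB : U_GB) (hPP : U_PP) : U_EB := by
  intro V _ G R p q n g hG hE hP hp hq hE' hA' hN hK
  by_contra hno
  have hst : ∀ i, ∃ s t, Pt R n g i s t := by
    intro i
    rcases hEA V _ R n g hE' hK i with h | h
    · exact absurd ⟨i, h⟩ hno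
    · exact h
  have ha := eb_end hC2 hC3 hC4 hD1 hGB hPP hG hE hP hp hq hE' hA' hK hst
  have hb := eb_end hC2 hC3 hC4 hD1 hGB hPP hG hE hP hp hq hE' hA' (MR.flip hPP hK)
    (fun i => by
      obtain ⟨s, t, h⟩ := hst i
      exact ⟨_, _, h.flip⟩)
  obtain ⟨i, k, hk, hr⟩ := hC0 V _ R n g hN hK.pi hK.odd
  obtain ⟨s, t, h⟩ := hst i
  have e1 := h.s_zero (ha i)
  have e2 := h.t_eq (by have := hb i; simpa using this)
  exact h.2.2.2.1 k (by omega) (by omega) hr

end Pool.Agent.H80.ER3
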