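import Pool.Agent.H80.ER3.Pat

/-!
# MP_816b90_co: no rung of a minimal prism of the lift is contained in `R`
-/

set_option autoImplicit false

namespace Pool.Agent.H80.ER3

open Pool.Agent.H48.ER Pool.Agent.H52.ER2 Pool.Agent.H66.ER2 Pool.Agent.H20.ER3

variable {V : Type}

/-- an odd prism of the mixed graph, all rungs with a pattern -/
structure PD (H : SimpleGraph V) (R : Set V) (n : Fin 3 → ℕ) (g : Fin 3 → ℕ → V ⊕ Set V) :
    Prop where
  pi : PI (MG H R) n g
  odd : ∀ i, Odd (n i)
  pt : ∀ i, Fl R n g i ∨ ∃ s t, Pt R n g i s t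

variable {H : SimpleGraph V} {R : Set V} {n : Fin 3 → ℕ} {g : Fin 3 → ℕ → V ⊕ Set V}

theorem PD.perm (hPP : U_PP) (h : PD H R n g) (σ : Fin 3 → Fin 3) (hσ : Function.Injective σ) :
    PD H R (fun i => n (σ i)) (fun i => g (σ i)) := by
  obtain ⟨h1, _, _⟩ := hPP _ _ n g h.pi
  obtain ⟨h3, h4⟩ := h1 σ hσ
  exact ⟨h3, fun i => h.odd _, fun i => h.pt (σ i)⟩

theorem PD.flip (hPP : U_PP) (h : PD H R n g) : PD H R n (fun i k => g i (n i - k)) := by
  obtain ⟨_, h3, h4⟩ := hPP _ _ n g h.pi
  refine ⟨h3, h.odd, fun i => ?_⟩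
  rcases h.pt i with h | ⟨s, t, h⟩
  · exact Or.inl h.flip
  · exact Or.inr ⟨_, _, h.flip⟩

/-- rung `0` in `R`, rung `1` with both ends in `R`, not contained in `R` -/
theorem ec_c8 (hC8 : U_C8) (hE : EvS H R) (hA : AsS H R) (h : PD H R n g) (h0 : Fl R n g 0)
    (ha : InR R (g 1 0)) (hb : InR R (g 1 (n 1))) (hn : ¬ Fl R n g 1) : InR R (g 2 (n 2)) := by
  rcases h.pt 1 with h1 | ⟨s, t, h1⟩
  · exact absurd h1 hn
  · exact hC8 V H R n g s t hE hA h.pi h.odd h0 (h1.s_pos ha) h1.1 (h1.t_lt hb) h1.2.2.1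
      (h1.2.2.2.1 s le_rfl h1.1) (h1.2.2.2.1 t h1.1 le_rfl) h1.2.2.2.2

theorem ec_c8' (hPP : U_PP) (hC8 : U_C8) (hE : EvS H R) (hA : AsS H R) (h : PD H R n g)
    (h0 : Fl R n g 0) (ha : InR R (g 1 0)) (hb : InR R (g 1 (n 1))) (hn : ¬ Fl R n g 1) :
    InR R (g 2 0) ∧ InR R (g 2 (n 2)) := by
  refine ⟨?_, ec_c8 hC8 hE hA h h0 ha hb hn⟩
  have := ec_c8 hC8 hE hA (h.flip hPP) h0.flip
    (by simpa using hb) (by simpa using ha) (fun h1 => hn ?_)
  · simpa using this
  · intro x hx
    have := h1 (n 1 - x) (by omega)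
    simpa [show n 1 - (n 1 - x) = x by omega] using this

theorem swap_inj : Function.Injective (Equiv.swap (1 : Fin 3) 2) := Equiv.injective _

theorem ec_c8s (hPP : U_PP) (hC8 : U_C8) (hE : EvS H R) (hA : AsS H R) (h : PD H R n g)
    (h0 : Fl R n g 0) (ha : InR R (g 2 0)) (hb : InR R (g 2 (n 2))) (hn : ¬ Fl R n g 2) :
    InR R (g 1 0) ∧ InR R (g 1 (n 1)) := by
  have h' := h.perm hPP (Equiv.swap (1 : Fin 3) 2) (Equiv.injective _)
  have e0 : Equiv.swap (1 : Fin 3) 2 0 = 0 := by decide
  have e1 : Equiv.swap (1 : Fin 3) 2 1 = 2 := by decide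
  have e2 : Equiv.swap (1 : Fin 3) 2 2 = 1 := by decide
  have key := ec_c8' hPP hC8 hE hA h'
    (by intro x hx; simp only [e0] at hx ⊢; exact h0 x hx)
    (by simp only [e1]; exact ha) (by simp only [e1]; exact hb)
    (by intro h1; apply hn; intro x hx; have := h1 x (by simp only [e1]; exact hx)
        simp only [e1] at this; exact this)
  simp only [e2] at key
  exact key

/-- `C5` for both pairs -/
theorem ec_c5 (hPP : U_PP) (hC5 : U_C5) (hE : EvS H R) (h : PD H R n g) (h0 : Fl R n g 0) :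
    (InR R (g 1 0) ∨ InR R (g 2 (n 2))) ∧ (InR R (g 2 0) ∨ InR R (g 1 (n 1))) := by
  refine ⟨hC5 V H R n g hE h.pi h.odd h0, ?_⟩
  have h' := h.perm hPP (Equiv.swap (1 : Fin 3) 2) (Equiv.injective _)
  have e0 : Equiv.swap (1 : Fin 3) 2 0 = 0 := by decide
  have e1 : Equiv.swap (1 : Fin 3) 2 1 = 2 := by decide
  have e2 : Equiv.swap (1 : Fin 3) 2 2 = 1 := by decide
  have key := hC5 V H R _ _ hE h'.pi h'.odd
    (by intro x hx; simp only [e0] at hx ⊢; exact h0 x hx)
  simp only [e1, e2] at key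
  exact key

variable {G : SimpleGraph V} {S : Set V} {p q : V}

/-- all rungs but one are contained in `R` -/
theorem ec_one (hPP : U_PP) (hD7 : U_D7) (hG : Cls G) (hE : EvS G R) (hP : EvP G p q)
    (hS : Star G R S) (hM : PMs True G S) (hp : p ∉ R) (hq : q ∉ R) (hE' : EvS (ctr G p q) R)
    (h : PD (ctr G p q) R n g) (m : Fin 3) (hf : ∀ i, i ≠ m → Fl R n g i)
    (hm : ¬ Fl R n g m) : False := by
  rcases h.pt m with h1 | ⟨s, t, h1⟩
  · exact hm h1
  · have h' := h.perm hPP (Equiv.swap 0 m) (Equiv.injective _)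
    have e0 : Equiv.swap 0 m 0 = m := Equiv.swap_apply_left 0 m
    refine hD7 V G R S p q _ _ s t hG hE hP hS hM hp hq hE' h'.pi h'.odd h1.1 ?_ ?_ ?_ ?_
    · simp only [e0]; exact h1.2.1
    · simp only [e0]; exact h1.2.2.2.1 s le_rfl h1.1
    · simp only [e0]; exact h1.2.2.2.1 t h1.1 le_rfl
    · intro i x hx hn
      by_cases hi : i = 0
      · subst hi
        simp only [e0] at hx ⊢
        rcases Nat.lt_or_ge x s with h2 | h2
        · exact h1.2.2.1 x h2
        · exact h1.2.2.2.2 x (by by_contra h3; exact hn ⟨rfl, h2, by omega⟩) hx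
      · refine hf _ ?_ x hx
        intro h2
        apply hi
        have : Equiv.swap 0 m i = Equiv.swap 0 m 0 := by rw [h2, e0]
        exact (Equiv.injective _) this

/-- all rungs are contained in `R` -/
theorem ec_all (hGB : U_GB) (hD0 : U_D0) (hG : Cls G) (hp : p ∉ R)
    (h : PD (ctr G p q) R n g) (hf : ∀ i, Fl R n g i) : False := by
  obtain ⟨g', h1, h2⟩ := real_of hGB h.pi fun i k hk => hf i k hk.le
  obtain ⟨i, k, hk, e, _⟩ := hD0 V G p q n g' hG.nop h1 h.odd
  have := hf i k hk
  rw [h2 i k hk, e, InR.inl_iff] at this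
  exact hp this

/-- the corners `g 1 0`, `g 2 0` in `R`, the other ends not -/
theorem ec_two (hGB : U_GB) (hC7 : U_C7) (hD2 : U_D2) (hG : Cls G) (hE : EvS G R)
    (hP : EvP G p q) (hp : p ∉ R) (hq : q ∉ R) (hE' : EvS (ctr G p q) R)
    (h : PD (ctr G p q) R n g) (h0 : Fl R n g 0) (ha : ∀ i, i ≠ 0 → InR R (g i 0))
    (hb : ∀ i, i ≠ 0 → ¬ InR R (g i (n i))) : False := by
  have hpt : ∀ i, ∃ s t, i ≠ 0 → Pt R n g i s t := by
    intro i
    rcases h.pt i with h1 | ⟨s, t, h1⟩
    · exact ⟨0, 0, fun hi => absurd (h1 _ le_rfl) (hb i hi)⟩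
    · exact ⟨s, t, fun _ => h1⟩
  choose s t hst using hpt
  have key := hC7 V (ctr G p q) R n g s hE' h.pi h.odd h0 (fun i hi => by
    have h1 := hst i hi
    have h2 := h1.1
    have h3 := h1.2.1
    exact ⟨h1.s_pos (ha i hi), by omega, h1.2.2.1, h1.2.2.2.1 _ le_rfl h1.1, hb i hi⟩)
  have hlt : ∀ i k, k ≤ n i → (i ≠ 0 → k < n i) → InR R (g i k) := by
    intro i k hk hk'
    by_cases hi : i = 0
    · subst hi
      exact h0 k hk
    · exact (hst i hi).2.2.1 k (by rw [key i hi]; exact hk' hi)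
  obtain ⟨g', h1, h2⟩ := real_of hGB h.pi fun i k hk => hlt i k hk.le fun _ => hk
  refine hD2 V G R p q n g' hG.noh hG.nop hE hp hq hP h1 h.odd ?_ ?_ ?_
  · intro h3
    exact hb 1 (by decide) (by rw [h2 1 _ le_rfl, InR.inl_iff]; exact h3)
  · intro h3
    exact hb 2 (by decide) (by rw [h2 2 _ le_rfl, InR.inl_iff]; exact h3)
  · intro i k hk hk'
    have := hlt i k hk hk'
    rw [h2 i k hk, InR.inl_iff] at this
    exact this

theorem pf_EC (hEA : U_EA) (hC5 : U_C5) (hC7 : U_C7) (hC8 : U_C8) (hC9 : U_C9) (hD0 : U_D0)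
    (hD2 : U_D2) (hD7 : U_D7) (hGB : U_GB) (hPP : U_PP) : U_EC := by
  intro V _ G R S p q n g hG hE hP hS hM hp hq hE' hA' hK h0
  have h : PD (ctr G p q) R n g := ⟨hK.pi, hK.odd, hEA V _ R n g hE' hK⟩
  have h0 : Fl R n g 0 := h0
  obtain ⟨c5, c5'⟩ := ec_c5 hPP hC5 hE' h h0
  -- one rung not contained in `R`
  have d7 := ec_one hPP hD7 hG hE hP hS hM hp hq hE' h
  by_cases hall : InR R (g 1 0) ∧ InR R (g 1 (n 1)) ∧ InR R (g 2 0) ∧ InR R (g 2 (n 2))
  · obtain ⟨a1, b1, a2, b2⟩ := hall
    by_cases f1 : Fl R n g 1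
    · by_cases f2 : Fl R n g 2
      · refine ec_all hGB hD0 hG hp h ?_
        intro i
        fin_cases i
        · exact h0
        · exact f1
        · exact f2
      · refine d7 2 ?_ f2
        intro i hi
        fin_cases i
        · exact h0
        · exact f1
        · exact absurd rfl hi
    · by_cases f2 : Fl R n g 2
      · refine d7 1 ?_ f1
        intro i hi
        fin_cases i
        · exact h0
        · exact absurd rfl hi
        · exact f2
      · have hpt : ∀ i, ∃ s t, i ≠ 0 → Pt R n g i s t := by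
          intro i
          rcases h.pt i with h1 | ⟨s, t, h1⟩
          · refine ⟨0, 0, fun hi => ?_⟩
            exfalso
            fin_cases i
            · exact hi rfl
            · exact f1 h1
            · exact f2 h1
          · exact ⟨s, t, fun _ => h1⟩
        choose s t hst using hpt
        refine hC9 V (ctr G p q) R n g s t hE' hA' h.pi h.odd h0 ?_
        intro i hi
        have h1 := hst i hi
        have ai : InR R (g i 0) := by
          fin_cases i
          · exact absurd rfl hi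
          · exact a1
          · exact a2
        have bi : InR R (g i (n i)) := by
          fin_cases i
          · exact absurd rfl hi
          · exact b1
          · exact b2
        exact ⟨h1.s_pos ai, h1.1, h1.t_lt bi, h1.2.2.1, h1.2.2.2.1 _ le_rfl h1.1,
          h1.2.2.2.1 _ h1.1 le_rfl, h1.2.2.2.2⟩
  · by_cases h1 : InR R (g 1 0) ∧ InR R (g 1 (n 1))
    · have f1 : Fl R n g 1 := by
        by_contra f1
        have := ec_c8' hPP hC8 hE' hA' h h0 h1.1 h1.2 f1
        exact hall ⟨h1.1, h1.2, this.1, this.2⟩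
      refine d7 2 ?_ ?_
      · intro i hi
        fin_cases i
        · exact h0
        · exact f1
        · exact absurd rfl hi
      · intro f2
        exact hall ⟨h1.1, h1.2, f2 _ (Nat.zero_le _), f2 _ le_rfl⟩
    · by_cases h2 : InR R (g 2 0) ∧ InR R (g 2 (n 2))
      · have f2 : Fl R n g 2 := by
          by_contra f2
          exact h1 (ec_c8s hPP hC8 hE' hA' h h0 h2.1 h2.2 f2)
        refine d7 1 ?_ ?_
        · intro i hi
          fin_cases i
          · exact h0
          · exact absurd rfl hi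
          · exact f2
        · intro f1
          exact h1 ⟨f1 _ (Nat.zero_le _), f1 _ le_rfl⟩
      · by_cases a1 : InR R (g 1 0)
        · have b1 : ¬ InR R (g 1 (n 1)) := fun b => h1 ⟨a1, b⟩
          have a2 : InR R (g 2 0) := c5'.resolve_right b1
          have b2 : ¬ InR R (g 2 (n 2)) := fun b => h2 ⟨a2, b⟩
          refine ec_two hGB hC7 hD2 hG hE hP hp hq hE' h h0 ?_ ?_
          · intro i hi
            fin_cases i
            · exact absurd rfl hi
            · exact a1
            · exact a2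
          · intro i hi
            fin_cases i
            · exact absurd rfl hi
            · exact b1
            · exact b2
        · have b2 : InR R (g 2 (n 2)) := c5.resolve_left a1
          have a2 : ¬ InR R (g 2 0) := fun b => h2 ⟨b, b2⟩
          have b1 : InR R (g 1 (n 1)) := c5'.resolve_left a2
          refine ec_two hGB hC7 hD2 hG hE hP hp hq hE' (h.flip hPP) h0.flip ?_ ?_
          · intro i hi
            fin_cases i
            · exact absurd rfl hi
            · simpa using b1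
            · simpa using b2
          · intro i hi
            fin_cases i
            · exact absurd rfl hi
            · simpa using a1
            · simpa using a2

end Pool.Agent.H80.ER3
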