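import Pool.Agent.H20.ER3.Lib

/-!
# MP_816b90_co: patterns of the rungs of a prism of the mixed graph
-/

set_option autoImplicit false

namespace Pool.Agent.H80.ER3

open Pool.Agent.H48.ER Pool.Agent.H52.ER2 Pool.Agent.H66.ER2 Pool.Agent.H20.ER3

variable {V : Type} {H : SimpleGraph V} {R : Set V} {n : Fin 3 → ℕ}
  {g : Fin 3 → ℕ → V ⊕ Set V}

/-- the rung `i` is contained in `R` -/
def Fl (R : Set V) (n : Fin 3 → ℕ) (g : Fin 3 → ℕ → V ⊕ Set V) (i : Fin 3) : Prop :=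
  ∀ x, x ≤ n i → InR R (g i x)

/-- the pattern of the rung `i` -/
def Pt (R : Set V) (n : Fin 3 → ℕ) (g : Fin 3 → ℕ → V ⊕ Set V) (i : Fin 3) (s t : ℕ) : Prop :=
  s ≤ t ∧ t ≤ n i ∧ (∀ x, x < s → InR R (g i x)) ∧
    (∀ x, s ≤ x → x ≤ t → ¬ InR R (g i x)) ∧ ∀ x, t < x → x ≤ n i → InR R (g i x)

theorem Pt.s_pos {i : Fin 3} {s t : ℕ} (h : Pt R n g i s t) (h0 : InR R (g i 0)) : 1 ≤ s := by
  rcases Nat.eq_zero_or_pos s with e | e
  · exact absurd h0 (h.2.2.2.1 0 (by omega) (by omega))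
  · exact e

theorem Pt.t_lt {i : Fin 3} {s t : ℕ} (h : Pt R n g i s t) (h0 : InR R (g i (n i))) :
    t < n i := by
  rcases Nat.lt_or_ge t (n i) with e | e
  · exact e
  · have h1 := h.1
    have h2 := h.2.1
    exact absurd h0 (h.2.2.2.1 (n i) (by omega) (by omega))

theorem Pt.s_zero {i : Fin 3} {s t : ℕ} (h : Pt R n g i s t) (h0 : ¬ InR R (g i 0)) :
    s = 0 := by
  rcases Nat.eq_zero_or_pos s with e | e
  · exact e
  · exact absurd (h.2.2.1 0 e) h0

theorem Pt.t_eq {i : Fin 3} {s t : ℕ} (h : Pt R n g i s t) (h0 : ¬ InR R (g i (n i))) :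
    t = n i := by
  rcases Nat.lt_or_ge t (n i) with e | e
  · exact absurd (h.2.2.2.2 (n i) e le_rfl) h0
  · have h2 := h.2.1
    omega

theorem Pt.flip {i : Fin 3} {s t : ℕ} (h : Pt R n g i s t) :
    Pt R n (fun i k => g i (n i - k)) i (n i - t) (n i - s) := by
  obtain ⟨h1, h2, h3, h4, h5⟩ := h
  refine ⟨by omega, by omega, fun x hx => ?_, fun x hx hx' => ?_, fun x hx hx' => ?_⟩
  · exact h5 _ (by omega) (by omega)
  · exact h4 _ (by omega) (by omega)
  · exact h3 _ (by omega)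

theorem Fl.flip {i : Fin 3} (h : Fl R n g i) : Fl R n (fun i k => g i (n i - k)) i :=
  fun _ _ => h _ (by omega)

theorem MR.perm (hPP : U_PP) (h : MR H R n g) (σ : Fin 3 → Fin 3) (hσ : Function.Injective σ) :
    MR H R (fun i => n (σ i)) (fun i => g (σ i)) := by
  obtain ⟨h1, _, _⟩ := hPP _ _ n g h.pi
  obtain ⟨h3, h4⟩ := h1 σ hσ
  exact ⟨h3, fun i => h.odd _, by rw [h4]; exact h.sp, by rw [h4]; exact h.mn⟩

theorem MR.flip (hPP : U_PP) (h : MR H R n g) : MR H R n (fun i k => g i (n i - k)) := by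
  obtain ⟨_, h3, h4⟩ := hPP _ _ n g h.pi
  exact ⟨h3, h.odd, by rw [h4]; exact h.sp, by rw [h4]; exact h.mn⟩

/-- there is no root in a prism if all vertices are in `R` or have a neighbour in `R` -/
theorem rt_empty (h : ∀ i k, k ≤ n i → InR R (g i k) ∨
    ∃ y, InR R y ∧ (MG H R).Adj (g i k) y) : rt (vI n g) = ∅ := by
  ext F
  constructor
  · rintro ⟨i, k, hk, e⟩
    rcases h i k hk with h | ⟨y, hy, ha⟩
    · rw [e] at h
      exact absurd h not_inR_root
    · rw [e] at ha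
      exact absurd ha (root_not_inR hy)
  · intro h
    exact absurd h (Set.notMem_empty F)

/-- a prism with `InR` for all vertices except possibly ends `g i (n i)` is a prism of `H` -/
theorem real_of (hGB : U_GB) (hp : PI (MG H R) n g) (h : ∀ i k, k < n i → InR R (g i k)) :
    ∃ g' : Fin 3 → ℕ → V, PI H n g' ∧ ∀ i k, k ≤ n i → g i k = Sum.inl (g' i k) := by
  refine (hGB V H R n).2 g hp (rt_empty (H := H) (R := R) fun i k hk => ?_)
  rcases Nat.lt_or_ge k (n i) with e | e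
  · exact Or.inl (h i k e)
  · have hpos := hp.pos i
    refine Or.inr ⟨g i (k - 1), h i _ (by omega), ?_⟩
    rw [hp.adj i i k (k - 1) hk (by omega)]
    exact Or.inl ⟨rfl, Or.inr (by omega)⟩

end Pool.Agent.H80.ER3
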